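import Mathlib
import Pool.Agent.Helper38.PI.Two2
import Pool.Agent.Helper38.PJ.Two

/-!
# Two constant windows at a distance about a multiple of the square root: the zone interface
-/

set_option autoImplicit false

open Filter Topology

namespace Pool.Agent.Helper38.PJ

open Pool.Agent.Helper38.PI (quot HasVal Zon)

private theorem alg3 {G : Type*} [CommGroup G] (x c p q r w : G) (h : p * q * r = w) :
    x * (c * w⁻¹) * p * c⁻¹ * q * r = x := by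
  subst h
  calc x * (c * (p * q * r)⁻¹) * p * c⁻¹ * q * r =
      x * (c * c⁻¹) * ((p * q * r) * (p * q * r)⁻¹) := by ac_rfl
    _ = x := by rw [mul_inv_cancel, mul_inv_cancel, mul_one, mul_one]

private theorem alg4 {G : Type*} [CommGroup G] (g x y : G) : g * x * (y * g⁻¹) = x * y := by
  calc g * x * (y * g⁻¹) = (g * g⁻¹) * (x * y) := by ac_rfl
    _ = x * y := by rw [mul_inv_cancel, one_mul]

namespace Hyp3

variable {G : Type*} [CommGroup G] {ε : ℝ} {M : ℤ} {s0 s1 : ℕ → G} {F : ℕ → ℤ → G}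
  {R : ℕ → ℝ} {U : Ultrafilter ℕ} {e : ℝ}

/-- geometric progression on the multiples of `M` in a zone -/
theorem stepM (H : Hyp3 ε M s0 s1 F R U) (γ : ℕ → G) (hγ : ∀ n, s1 n * (s0 n)⁻¹ = γ n)
    (he : Tendsto (fun n => ((⌈2 * R n ^ 2⌉ : ℤ) : ℝ) - 2 * R n ^ 2) U (𝓝 e)) (k : ℤ) (hk : 0 ≤ k)
    (a b : ℝ) (ha : 0 ≤ a) (hb0 : 0 ≤ b) (hb : b ^ 2 < k + e) (hab : (k : ℝ) + e - ε < a ^ 2) :
    ∀ᶠ n in (U : Filter ℕ), ∀ z : ℤ, a * R n ≤ (z : ℝ) - R n ^ 2 → (z : ℝ) - R n ^ 2 ≤ b * R n →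
      F n (z + 1) = γ n * F n z := by
  have hM1 := H.M1
  have hMr : (1 : ℝ) ≤ (M : ℝ) := by exact_mod_cast hM1
  have hM0 : (0 : ℝ) < M := by linarith
  filter_upwards [H.ev he k hk a b ha hb0 hb hab, H.Rpos 1] with n h1 h2 z hz1 hz2
  have hR0 : 0 < R n := by linarith
  have haR : 0 ≤ a * R n := by positivity
  have hzpos : (0 : ℝ) < z := by
    have : 0 < R n ^ 2 := by positivity
    linarith
  have hz0 : 0 < z := by exact_mod_cast hzpos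
  have g2 : (((M * z : ℤ) : ℝ) - M * R n ^ 2) = M * (z - R n ^ 2) := by
    push_cast
    ring
  have g3 : 0 ≤ (((M * z : ℤ) : ℝ) - M * R n ^ 2) := by
    rw [g2]
    exact mul_nonneg hM0.le (by linarith)
  have g4 : (M : ℝ) * (a * R n) ≤ M * (z - R n ^ 2) := mul_le_mul_of_nonneg_left hz1 hM0.le
  have g5 : (M : ℝ) * (z - R n ^ 2) ≤ M * (b * R n) := mul_le_mul_of_nonneg_left hz2 hM0.le
  obtain ⟨-, q1, q2⟩ := h1 (M * z) (by
    rw [abs_of_nonneg g3, g2]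
    linarith) (by
    rw [abs_of_nonneg g3, g2]
    linarith)
  have q3 : F n (M * z + M) = γ n * F n (M * z) := by
    rw [← hγ]
    exact quot _ _ _ _ _ q1 q2
  rw [show M * z + M = M * (z + 1) by ring,
    H.hmul n _ _ (by omega) (by omega), H.hmul n _ _ (by omega) (by omega), mul_left_comm] at q3
  exact mul_left_cancel q3

/-- geometric progression on a zone, right side -/
theorem zone_const (H : Hyp3 ε M s0 s1 F R U) (γ : ℕ → G) (hγ : ∀ n, s1 n * (s0 n)⁻¹ = γ n)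
    (he : Tendsto (fun n => ((⌈2 * R n ^ 2⌉ : ℤ) : ℝ) - 2 * R n ^ 2) U (𝓝 e)) (k : ℤ) (hk : 0 ≤ k)
    (a b : ℝ) (ha : 0 ≤ a) (hb0 : 0 ≤ b) (hb : b ^ 2 < k + e) (hab : (k : ℝ) + e - ε < a ^ 2) :
    ∀ᶠ n in (U : Filter ℕ), ∀ N M' : ℤ, a * R n ≤ (N : ℝ) - R n ^ 2 → N ≤ M' →
      (M' : ℝ) - R n ^ 2 ≤ b * R n →
      F n M' * γ n ^ (-M') = F n N * γ n ^ (-N) := by
  filter_upwards [H.stepM γ hγ he k hk a b ha hb0 hb hab, H.Rpos 0] with n hstep h3 N M' hN hNM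
  have haR : 0 ≤ a * R n := by positivity
  induction M', hNM using Int.leInduction with
  | base => intro _; rfl
  | succ M' hM ih =>
    intro hMb
    push_cast at hMb
    have hM' : (N : ℝ) ≤ (M' : ℝ) := by exact_mod_cast hM
    have h1 := ih (by linarith)
    rw [hstep M' (by linarith) (by linarith), ← h1, show -(M' + 1) = -M' + -1 by ring, zpow_add,
      zpow_neg_one]
    exact alg4 _ _ _

/-- the constant of a zone -/
theorem zone_val (H : Hyp3 ε M s0 s1 F R U) (γ : ℕ → G) (hγ : ∀ n, s1 n * (s0 n)⁻¹ = γ n) (he0 : 0 ≤ e)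
    (he : Tendsto (fun n => ((⌈2 * R n ^ 2⌉ : ℤ) : ℝ) - 2 * R n ^ 2) U (𝓝 e)) (k : ℤ) (hk : 1 ≤ k) :
    ∃ c : ℕ → G, ∀ a b : ℝ, 0 ≤ a → 0 ≤ b → (k : ℝ) + e - ε < a ^ 2 → b ^ 2 < k + e →
      ∀ᶠ n in (U : Filter ℕ), ∀ N : ℤ, a * R n ≤ (N : ℝ) - R n ^ 2 → (N : ℝ) - R n ^ 2 ≤ b * R n →
        F n N = c n * γ n ^ N := by
  have hε := H.hε
  have hε1 := H.hε1
  have hk' : (1 : ℝ) ≤ (k : ℝ) := by exact_mod_cast hk
  obtain ⟨t1, ht1⟩ : ∃ t1, t1 = Real.sqrt (k + e - ε / 2) := ⟨_, rfl⟩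
  obtain ⟨t2, ht2⟩ : ∃ t2, t2 = Real.sqrt (k + e - ε / 4) := ⟨_, rfl⟩
  have ht1s : t1 ^ 2 = k + e - ε / 2 := by rw [ht1, Real.sq_sqrt]; linarith
  have ht2s : t2 ^ 2 = k + e - ε / 4 := by rw [ht2, Real.sq_sqrt]; linarith
  have ht10 : 0 ≤ t1 := by rw [ht1]; exact Real.sqrt_nonneg _
  have ht20 : 0 ≤ t2 := by rw [ht2]; exact Real.sqrt_nonneg _
  have ht12 : t1 < t2 := by nlinarith
  obtain ⟨z1, hz1⟩ : ∃ z1 : ℕ → ℤ, ∀ n, ⌈R n ^ 2 + t1 * R n⌉ = z1 n :=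
    ⟨fun n => ⌈R n ^ 2 + t1 * R n⌉, fun _ => rfl⟩
  obtain ⟨c, hc⟩ : ∃ c : ℕ → G, ∀ n, F n (z1 n) * γ n ^ (-z1 n) = c n :=
    ⟨fun n => F n (z1 n) * γ n ^ (-z1 n), fun _ => rfl⟩
  refine ⟨c, fun a b ha hb0 hab hb => ?_⟩
  have hm1 : (k : ℝ) + e - ε < (min a t1) ^ 2 := by
    rcases min_choice a t1 with h | h <;> rw [h] <;> linarith
  have hm2 : (max b t2) ^ 2 < k + e := by
    rcases max_choice b t2 with h | h <;> rw [h] <;> linarith
  filter_upwards [H.zone_const γ hγ he k (by omega) (min a t1) (max b t2) (le_min ha ht10)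
    (le_max_of_le_left hb0) hm2 hm1, H.Rpos 0, H.Rpos (1 / (t2 - t1))] with n h1 h3 h4 N hN1 hN2
  have h5 : 1 < (t2 - t1) * R n := by
    rw [div_lt_iff₀ (by linarith)] at h4
    linarith
  have c1 := Int.le_ceil (R n ^ 2 + t1 * R n)
  have c2 := Int.ceil_lt_add_one (R n ^ 2 + t1 * R n)
  rw [hz1] at c1 c2
  have hmin1 : min a t1 * R n ≤ a * R n := mul_le_mul_of_nonneg_right (min_le_left _ _) h3.le
  have hmin2 : min a t1 * R n ≤ t1 * R n := mul_le_mul_of_nonneg_right (min_le_right _ _) h3.le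
  have hmax1 : b * R n ≤ max b t2 * R n := mul_le_mul_of_nonneg_right (le_max_left _ _) h3.le
  have hmax2 : t2 * R n ≤ max b t2 * R n := mul_le_mul_of_nonneg_right (le_max_right _ _) h3.le
  have h6 : F n N * γ n ^ (-N) = c n := by
    rw [← hc n]
    rcases le_total N (z1 n) with h | h
    · exact (h1 N (z1 n) (by linarith) h (by linarith)).symm
    · exact h1 (z1 n) N (by linarith) h (by linarith)
  rw [← h6, mul_assoc, ← zpow_add, neg_add_cancel, zpow_zero, mul_one]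

/-- the mirror relation -/
theorem partnerZ (H : Hyp3 ε M s0 s1 F R U)
    (he : Tendsto (fun n => ((⌈2 * R n ^ 2⌉ : ℤ) : ℝ) - 2 * R n ^ 2) U (𝓝 e)) (k : ℤ) (hk : 0 ≤ k)
    (a b : ℝ) (ha : 0 ≤ a) (hb0 : 0 ≤ b) (hb : b ^ 2 < k + e) (hab : (k : ℝ) + e - ε < a ^ 2) :
    ∀ᶠ n in (U : Filter ℕ), ∀ z : ℤ, a * R n ≤ |(z : ℝ) - R n ^ 2| → |(z : ℝ) - R n ^ 2| ≤ b * R n →
      F n z * F n (⌈2 * R n ^ 2⌉ + k - z) = s0 n * (F n M * F n M)⁻¹ := by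
  have hM1 := H.M1
  have hMr : (1 : ℝ) ≤ (M : ℝ) := by exact_mod_cast hM1
  have hM0 : (0 : ℝ) < M := by linarith
  filter_upwards [H.ev he k hk a b ha hb0 hb hab] with n h1 z hz1 hz2
  have g2 : |((M * z : ℤ) : ℝ) - M * R n ^ 2| = M * |(z : ℝ) - R n ^ 2| := by
    rw [← abs_of_pos hM0, ← abs_mul, abs_of_pos hM0]
    congr 1
    push_cast
    ring
  obtain ⟨⟨n1, n2⟩, q1, -⟩ := h1 (M * z) (by
    rw [g2]
    have := mul_le_mul_of_nonneg_left hz1 hM0.le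
    linarith) (by
    rw [g2]
    have := mul_le_mul_of_nonneg_left hz2 hM0.le
    linarith)
  have hm : M * (⌈2 * R n ^ 2⌉ + k) - M * z = M * (⌈2 * R n ^ 2⌉ + k - z) := by ring
  rw [hm] at n2 q1
  rw [H.hmul n _ _ (left_ne_zero_of_mul n1) (right_ne_zero_of_mul n1),
    H.hmul n _ _ (left_ne_zero_of_mul n2) (right_ne_zero_of_mul n2)] at q1
  rw [← q1, eq_mul_inv_iff_mul_eq]
  exact (mul_mul_mul_comm _ _ _ _).trans (by rw [mul_comm (F n z), mul_comm (F n (_ - z))])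

/-- the value near a point of a zone and near its mirror image -/
theorem hv (H : Hyp3 ε M s0 s1 F R U) (γ : ℕ → G) (hγ : ∀ n, s1 n * (s0 n)⁻¹ = γ n)
    (m : ℕ → ℤ) (hm : ∀ n, ⌈2 * R n ^ 2⌉ = m n) (he0 : 0 ≤ e)
    (he : Tendsto (fun n => ((⌈2 * R n ^ 2⌉ : ℤ) : ℝ) - 2 * R n ^ 2) U (𝓝 e)) (k : ℤ) (hk : 1 ≤ k) :
    ∃ c : ℕ → G, ∀ t : ℝ, 0 < t → (k : ℝ) + e - ε < t ^ 2 → t ^ 2 < k + e →
      HasVal F γ R U t c ∧
        HasVal F γ R U (-t)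
          (fun n => (s0 n * (F n M * F n M)⁻¹ * γ n ^ (-m n)) * (c n)⁻¹ *
            γ n ^ (-k)) := by
  have hε := H.hε
  obtain ⟨c, hc⟩ := H.zone_val γ hγ he0 he k hk
  refine ⟨c, fun t ht0 ht1 ht2 => ?_⟩
  have hcont : ContinuousAt (fun x : ℝ => x ^ 2) t := by fun_prop
  have n1 : ∀ᶠ x in 𝓝 t, (k : ℝ) + e - ε < x ^ 2 := hcont.eventually_const_lt ht1
  have n2 : ∀ᶠ x in 𝓝 t, x ^ 2 < (k : ℝ) + e := hcont.eventually_lt_const ht2
  have n3 : ∀ᶠ x in 𝓝 t, 0 < x := eventually_gt_nhds ht0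
  obtain ⟨δ, hδ, hball⟩ := Metric.eventually_nhds_iff.1 ((n1.and n2).and n3)
  obtain ⟨η, hη⟩ : ∃ η, η = δ / 4 := ⟨_, rfl⟩
  have hη0 : 0 < η := by rw [hη]; linarith
  have ha := hball (y := t - η) (by rw [Real.dist_eq, abs_lt]; constructor <;> linarith)
  have hb := hball (y := t + 2 * η) (by rw [Real.dist_eq, abs_lt]; constructor <;> linarith)
  have hz := hc (t - η) (t + 2 * η) ha.2.le hb.2.le ha.1.1 hb.1.2
  constructor
  · refine ⟨η, hη0, ?_⟩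
    filter_upwards [hz, H.Rpos 0] with n h1 h2 N hN
    have h3 := abs_le.1 hN
    have h4 : 0 ≤ η * R n := by positivity
    apply h1 N <;> linarith
  · refine ⟨η, hη0, ?_⟩
    have hK : Tendsto (fun n => (((⌈2 * R n ^ 2⌉ : ℤ) : ℝ) - 2 * R n ^ 2) + k) U (𝓝 (e + k)) :=
      he.add_const _
    have hK2 := (H.hinv2 _ _ hK).eventually_lt_const hη0
    filter_upwards [hz, H.Rpos 0, H.partnerZ he k (by omega) (t - η) (t + 2 * η) ha.2.le hb.2.le hb.1.2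
      (by linarith [ha.1.1]), hK2] with n h1 h2 h3 h4 N hN
    have h5 := abs_le.1 hN
    have h6 : 0 ≤ η * R n := by positivity
    have h7 : 0 ≤ (t - η) * R n := mul_nonneg ha.2.le h2.le
    have h8 : |(N : ℝ) - R n ^ 2| = R n ^ 2 - N := by
      rw [abs_of_nonpos (by linarith)]
      ring
    have h9 := h3 N (by rw [h8]; linarith) (by rw [h8]; linarith)
    have hJ : 0 ≤ ((⌈2 * R n ^ 2⌉ : ℤ) : ℝ) - 2 * R n ^ 2 := by
      have := Int.le_ceil (2 * R n ^ 2)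
      linarith
    have hk0 : (1 : ℝ) ≤ k := by exact_mod_cast hk
    rw [div_lt_iff₀ h2] at h4
    have h10 := h1 (⌈2 * R n ^ 2⌉ + k - N) (by push_cast; linarith) (by push_cast; linarith)
    rw [h10, hm] at h9
    show F n N = (s0 n * (F n M * F n M)⁻¹ * γ n ^ (-m n)) * (c n)⁻¹ * γ n ^ (-k) * γ n ^ N
    rw [← h9, show m n + k - N = -(-m n + -k + N) by ring, zpow_neg]
    exact (alg3 (F n N) (c n) (γ n ^ (-m n)) (γ n ^ (-k)) (γ n ^ N) (γ n ^ (-m n + -k + N))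
      (by rw [zpow_add, zpow_add])).symm

theorem toZon (H : Hyp3 ε M s0 s1 F R U) :
    Zon ε (fun n => s0 n * (F n M * F n M)⁻¹ * (s1 n * (s0 n)⁻¹) ^ (-⌈2 * R n ^ 2⌉))
      (fun n => s1 n * (s0 n)⁻¹) F R U :=
  { hε := H.hε
    hε1 := H.hε1
    hmul := H.hmul
    hR := H.hR
    hz := fun _ he0 he k hk => H.hv _ (fun _ => rfl) _ (fun _ => rfl) he0 he k hk }

end Hyp3

end Pool.Agent.Helper38.PJ
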