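import Mathlib
import Pool.Agent.Helper38.PJ.Two2
import Pool.Agent.Helper38.PI.ZonSmall

/-!
# Two constant windows at a distance of about a multiple of the square root
-/

set_option autoImplicit false

open Filter Topology

namespace Pool.Agent.Helper38.PJ

open Pool.Agent.Helper38.PI (concl)

universe w

/-- Two windows `(y, y + κ √y]`, `(y + h √y, y + h √y + κ √y]` on each of which `f` is constant. -/
theorem base (κ : ℝ) (hκ : 0 < κ) (h : ℕ) (hh : 1 ≤ h) :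
    ∃ c : ℝ, 0 < c ∧ ∃ y0 : ℕ, ∀ y : ℝ, (y0 : ℝ) ≤ y → ∀ (G : Type w) [CommGroup G] (f : ℕ → G),
      (∀ a b : ℕ, a ≠ 0 → b ≠ 0 → f (a * b) = f a * f b) →
      (∀ m m' : ℕ, y < m → (m : ℝ) ≤ y + κ * Real.sqrt y → y < m' →
        (m' : ℝ) ≤ y + κ * Real.sqrt y → f m = f m') →
      (∀ m m' : ℕ, y + h * Real.sqrt y < m → (m : ℝ) ≤ y + h * Real.sqrt y + κ * Real.sqrt y →
        y + h * Real.sqrt y < m' → (m' : ℝ) ≤ y + h * Real.sqrt y + κ * Real.sqrt y → f m = f m') →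
      (∀ m : ℕ, y < m → (m : ℝ) ≤ y + κ * Real.sqrt y → f m = 1) ∧
      (∀ m : ℕ, y + h * Real.sqrt y < m → (m : ℝ) ≤ y + h * Real.sqrt y + κ * Real.sqrt y →
        f m = 1) ∧
      ∀ k : ℕ, k ≠ 0 → (k : ℝ) ≤ c * Real.sqrt (Real.sqrt y) → f k = 1 := by
  obtain ⟨M, hM⟩ : ∃ M : ℤ, M = h := ⟨_, rfl⟩
  have hM1 : 1 ≤ M := by
    rw [hM]
    exact_mod_cast hh
  have hMh : (M : ℝ) = h := by rw [hM]; push_cast; rfl
  have hMr : (1 : ℝ) ≤ (M : ℝ) := by exact_mod_cast hM1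
  have hM0 : (0 : ℝ) < M := by linarith
  obtain ⟨ε, hεd⟩ : ∃ ε : ℝ, ε = min (κ / M) (1 / 2) := ⟨_, rfl⟩
  have hε : 0 < ε := by rw [hεd]; exact lt_min (by positivity) (by norm_num)
  have hε1 : ε < 1 := by
    have := min_le_right (κ / (M : ℝ)) (1 / 2)
    rw [← hεd] at this
    linarith
  have hεκ : ε * M ≤ κ := by
    have := min_le_left (κ / (M : ℝ)) (1 / 2)
    rw [← hεd, le_div_iff₀ hM0] at this
    exact this
  obtain ⟨c1, hc1, hmain⟩ := concl.{w} ε hε hε1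
  have hsM : 0 < Real.sqrt M := Real.sqrt_pos.2 hM0
  refine ⟨c1 / Real.sqrt M, by positivity, ?_⟩
  by_contra hcon
  push Not at hcon
  obtain ⟨A, hA⟩ : ∃ A : ℕ, A = ⌈(1 / κ) ^ 2⌉₊ + 1 := ⟨_, rfl⟩
  have hA1 : (1 / κ) ^ 2 ≤ (A : ℝ) := by
    rw [hA]
    push_cast
    linarith [Nat.le_ceil ((1 / κ) ^ 2)]
  have hx := fun i : ℕ => hcon (i + A)
  choose y hy G inst f hf hW0 hW1 hbad using hx
  obtain ⟨r, hr⟩ : ∃ r : ℕ → ℝ, ∀ i, Real.sqrt (y i) = r i := ⟨fun i => Real.sqrt (y i), fun _ => rfl⟩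
  simp only [hr] at hW0 hW1 hbad
  obtain ⟨F, hF⟩ : ∃ F : ℕ → ℤ → (∀ i, G i), ∀ i z, F i z = Pi.mulSingle i (f i z.natAbs) :=
    ⟨fun i z => Pi.mulSingle i (f i z.natAbs), fun _ _ => rfl⟩
  have hy1 : ∀ i : ℕ, (i : ℝ) + A ≤ y i := fun i => by
    have := hy i
    push_cast at this
    exact this
  have hyA : ∀ i, (1 / κ) ^ 2 ≤ y i := fun i => by
    have := hy1 i
    have h0 : (0 : ℝ) ≤ i := Nat.cast_nonneg i
    linarith
  have hy0 : ∀ i, 0 ≤ y i := fun i => (sq_nonneg _).trans (hyA i)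
  have hr0 : ∀ i, 0 ≤ r i := fun i => by rw [← hr]; exact Real.sqrt_nonneg _
  have hrr : ∀ i, r i ^ 2 = y i := fun i => by rw [← hr]; exact Real.sq_sqrt (hy0 i)
  have hrκ : ∀ i, 1 ≤ κ * r i := fun i => by
    have h1 : 1 / κ ≤ r i := by
      rw [← hr]
      exact Real.le_sqrt_of_sq_le (hyA i)
    rw [div_le_iff₀ hκ] at h1
    linarith
  have hnat : ∀ t : ℝ, 0 ≤ t → ∀ z : ℤ, t < z → ((z.natAbs : ℕ) : ℝ) = z := by
    intro t ht z hz
    have h2 : (0 : ℝ) < z := by linarith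
    have h3 : 0 < z := by exact_mod_cast h2
    rw [Nat.cast_natAbs, abs_of_pos h3]
  have hfl1 : ∀ t : ℝ, t < ((⌊t⌋ + 1 : ℤ) : ℝ) := fun t => by
    push_cast
    exact Int.lt_floor_add_one t
  have hfl2 : ∀ t : ℝ, ((⌊t⌋ + 1 : ℤ) : ℝ) ≤ t + 1 := fun t => by
    push_cast
    linarith [Int.floor_le t]
  have hR2 : ∀ i, Real.sqrt (r i / M) ^ 2 = r i / M := fun i =>
    Real.sq_sqrt (div_nonneg (hr0 i) hM0.le)
  have hR4 : ∀ i, Real.sqrt (r i / M) ^ 4 = (r i / M) ^ 2 := fun i => by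
    rw [show (4 : ℕ) = 2 * 2 by norm_num, pow_mul, hR2]
  have e4 : ∀ i, (M : ℝ) ^ 2 * Real.sqrt (r i / M) ^ 4 = y i := fun i => by
    rw [hR4, ← hrr]
    field_simp
  have e2 : ∀ i, (M : ℝ) ^ 2 * Real.sqrt (r i / M) ^ 2 = h * r i := fun i => by
    rw [hR2, ← hMh]
    field_simp
  have e22 : ∀ i, ε * (M : ℝ) ^ 2 * Real.sqrt (r i / M) ^ 2 = ε * M * r i := fun i => by
    rw [hR2]
    field_simp
  have hεn : ∀ i, ε * M * r i ≤ κ * r i := fun i => mul_le_mul_of_nonneg_right hεκ (hr0 i)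
  have hhr : ∀ i, 0 ≤ y i + h * r i := fun i =>
    add_nonneg (hy0 i) (mul_nonneg (Nat.cast_nonneg _) (hr0 i))
  -- the two windows, in terms of `F`
  have hF0 : ∀ i, ∀ z : ℤ, y i < z → (z : ℝ) ≤ y i + κ * r i → F i z = F i (⌊y i⌋ + 1) := by
    intro i z h1 h2
    have h5 := hfl1 (y i)
    have h6 : ((⌊y i⌋ + 1 : ℤ) : ℝ) ≤ y i + κ * r i := by linarith [hfl2 (y i), hrκ i]
    rw [hF, hF]
    congr 1
    apply hW0 i
    · rw [hnat _ (hy0 i) z h1]; exact h1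
    · rw [hnat _ (hy0 i) z h1]; exact h2
    · rw [hnat _ (hy0 i) _ h5]; exact h5
    · rw [hnat _ (hy0 i) _ h5]; exact h6
  have hF1 : ∀ i, ∀ z : ℤ, y i + h * r i < z → (z : ℝ) ≤ y i + h * r i + κ * r i →
      F i z = F i (⌊y i + h * r i⌋ + 1) := by
    intro i z h1 h2
    have h5 := hfl1 (y i + h * r i)
    have h6 : ((⌊y i + h * r i⌋ + 1 : ℤ) : ℝ) ≤ y i + h * r i + κ * r i := by
      linarith [hfl2 (y i + h * r i), hrκ i]
    rw [hF, hF]
    congr 1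
    apply hW1 i
    · rw [hnat _ (hhr i) z h1]; exact h1
    · rw [hnat _ (hhr i) z h1]; exact h2
    · rw [hnat _ (hhr i) _ h5]; exact h5
    · rw [hnat _ (hhr i) _ h5]; exact h6
  have H : Hyp3 ε M (fun i => F i (⌊y i⌋ + 1)) (fun i => F i (⌊y i + h * r i⌋ + 1)) F
      (fun i => Real.sqrt (r i / M)) (hyperfilter ℕ) :=
    { hε := hε
      hε1 := hε1
      M1 := hM1
      hmul := by
        intro i a b ha hb
        rw [hF, hF, hF, Int.natAbs_mul, hf i _ _ (by omega) (by omega), Pi.mulSingle_mul]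
      hR := by
        have h0 : Tendsto y atTop atTop := by
          refine tendsto_atTop_mono (fun i => ?_) tendsto_natCast_atTop_atTop
          have := hy1 i
          have h0 : (0 : ℝ) ≤ A := Nat.cast_nonneg _
          linarith
        have h1 : Tendsto (fun i => r i / M) atTop atTop := by
          apply Tendsto.atTop_div_const hM0
          have := Real.tendsto_sqrt_atTop.comp h0
          exact this.congr hr
        exact (Real.tendsto_sqrt_atTop.comp h1).mono_left Nat.hyperfilter_le_atTop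
      hW0 := by
        intro i z h1 h2
        rw [e4] at h1 h2
        rw [e22] at h2
        exact hF0 i z h1 (by linarith [hεn i])
      hW1 := by
        intro i z h1 h2
        rw [e4, e2] at h1 h2
        rw [e22] at h2
        exact hF1 i z h1 (by linarith [hεn i]) }
  have h1 := hmain _ _ _ _ _ _ H.toZon
  obtain ⟨i, ⟨hg, hs, hk⟩, hMR⟩ := (h1.and (H.Rpos (M / c1))).exists
  rw [div_lt_iff₀ hc1] at hMR
  have hFM := hk M hM1 (by linarith)
  simp only [hFM] at hs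
  rw [hg] at hs
  simp only [one_zpow, mul_one, inv_one] at hs
  rw [hs, inv_one, mul_one] at hg
  have hconv : ∀ m : ℕ, F i (m : ℤ) = 1 → f i m = 1 := by
    intro m hm
    rw [hF, Int.natAbs_natCast] at hm
    exact Pi.mulSingle_eq_one_iff.1 hm
  obtain ⟨k, hk0, hk1, hk2⟩ := hbad i (fun m hm1 hm2 => hconv m (by
      rw [hF0 i m (by exact_mod_cast hm1) (by exact_mod_cast hm2)]
      exact hs)) (fun m hm1 hm2 => hconv m (by
      rw [hF1 i m (by exact_mod_cast hm1) (by exact_mod_cast hm2)]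
      exact hg))
  apply hk2
  apply hconv
  apply hk k (by omega)
  rw [Real.sqrt_div (hr0 i), Int.cast_natCast]
  calc (k : ℝ) ≤ c1 / Real.sqrt M * Real.sqrt (r i) := hk1
    _ = c1 * (Real.sqrt (r i) / Real.sqrt M) := by ring

/-- Two windows `(x, x + κ √x]`, `(x', x' + κ √x]` on each of which `f` is constant, where
`|x' - x - h √x| ≤ θ √x`, `h ≥ 1` an integer and `θ < κ`. -/
theorem final (κ θ : ℝ) (hθ : 0 ≤ θ) (hκ : θ < κ) (h : ℕ) (hh : 1 ≤ h) :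
    ∃ c : ℝ, 0 < c ∧ ∃ x0 : ℝ, ∀ x x' : ℝ, x0 ≤ x → |x' - x - h * Real.sqrt x| ≤ θ * Real.sqrt x →
      ∀ (G : Type w) [CommGroup G] (f : ℕ → G),
        (∀ a b : ℕ, a ≠ 0 → b ≠ 0 → f (a * b) = f a * f b) →
        (∀ m m' : ℕ, x < m → (m : ℝ) ≤ x + κ * Real.sqrt x → x < m' →
          (m' : ℝ) ≤ x + κ * Real.sqrt x → f m = f m') →
        (∀ m m' : ℕ, x' < m → (m : ℝ) ≤ x' + κ * Real.sqrt x → x' < m' →
          (m' : ℝ) ≤ x' + κ * Real.sqrt x → f m = f m') →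
        (∀ m : ℕ, x < m → (m : ℝ) ≤ x + κ * Real.sqrt x → f m = 1) ∧
        (∀ m : ℕ, x' < m → (m : ℝ) ≤ x' + κ * Real.sqrt x → f m = 1) ∧
        ∀ k : ℕ, k ≠ 0 → (k : ℝ) ≤ c * Real.sqrt (Real.sqrt x) → f k = 1 := by
  obtain ⟨μ, hμ⟩ : ∃ μ : ℝ, μ = (κ - θ) / 2 := ⟨_, rfl⟩
  have hμ0 : 0 < μ := by rw [hμ]; linarith
  obtain ⟨c, hc, y0, hmain⟩ := base.{w} μ hμ0 h hh
  have hh0 : (1 : ℝ) ≤ h := by exact_mod_cast hh
  obtain ⟨B, hB⟩ : ∃ B : ℝ, B = max 1 (max (1 / μ) ((μ * (θ / 2) + h * (θ / 2)) / μ)) := ⟨_, rfl⟩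
  have hB1 : 1 ≤ B := by rw [hB]; exact le_max_left _ _
  have hB2 : 1 / μ ≤ B := by rw [hB]; exact (le_max_left _ _).trans (le_max_right _ _)
  have hB3 : (μ * (θ / 2) + h * (θ / 2)) / μ ≤ B := by
    rw [hB]; exact (le_max_right _ _).trans (le_max_right _ _)
  refine ⟨c, hc, max y0 (B ^ 2), fun x x' hx hxx G _ f hf hW0 hW1 => ?_⟩
  have hx1 : (y0 : ℝ) ≤ x := (le_max_left _ _).trans hx
  have hx2 : B ^ 2 ≤ x := (le_max_right _ _).trans hx
  have hx0 : 0 ≤ x := (sq_nonneg _).trans hx2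
  have hr : B ≤ Real.sqrt x := Real.le_sqrt_of_sq_le hx2
  obtain ⟨r, hrd⟩ : ∃ r, Real.sqrt x = r := ⟨_, rfl⟩
  rw [hrd] at hW0 hW1 hxx hr ⊢
  have hr1 : 1 ≤ r := hB1.trans hr
  have hrr : r ^ 2 = x := by rw [← hrd]; exact Real.sq_sqrt hx0
  have hrμ : 1 ≤ μ * r := by
    have := hB2.trans hr
    rw [div_le_iff₀ hμ0] at this
    linarith
  have hrB : μ * (θ / 2) + h * (θ / 2) ≤ μ * r := by
    have := hB3.trans hr
    rw [div_le_iff₀ hμ0] at this
    linarith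
  have hxx' := abs_le.1 hxx
  obtain ⟨y, hy⟩ : ∃ y, y = max x (x' - h * r) := ⟨_, rfl⟩
  have hy1 : x ≤ y := by rw [hy]; exact le_max_left _ _
  have hy2 : x' ≤ y + h * r := by
    have : x' - h * r ≤ y := by rw [hy]; exact le_max_right _ _
    linarith
  have hθr : 0 ≤ θ * r := by positivity
  have hy3 : y ≤ x + θ * r := by
    rw [hy]
    apply max_le <;> linarith
  have hy4 : y + h * r ≤ x' + θ * r := by
    have : y ≤ x' - h * r + θ * r := by
      rw [hy]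
      apply max_le <;> linarith
    linarith
  obtain ⟨t, ht⟩ : ∃ t, Real.sqrt y = t := ⟨_, rfl⟩
  have htt : t ^ 2 = y := by rw [← ht]; exact Real.sq_sqrt (hx0.trans hy1)
  have ht0 : 0 ≤ t := by rw [← ht]; exact Real.sqrt_nonneg _
  have hrt : r ≤ t := by rw [← hrd, ← ht]; exact Real.sqrt_le_sqrt hy1
  have htr : t ≤ r + θ / 2 := by
    rw [← ht]
    apply Real.sqrt_le_iff.2
    constructor
    · positivity
    · have : 0 ≤ θ ^ 2 := sq_nonneg θ
      nlinarith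
  have hht : h * t ≤ h * r + h * (θ / 2) := by nlinarith
  have hht' : h * r ≤ h * t := by nlinarith
  have hμt : μ * t ≤ μ * r + μ * (θ / 2) := by nlinarith
  have hμr : μ * r ≤ μ * t := by nlinarith
  have hκr : κ * r = θ * r + 2 * (μ * r) := by rw [hμ]; ring
  have hb := hmain y (hx1.trans hy1) G f hf
  rw [ht] at hb
  obtain ⟨b1, b2, b3⟩ := hb (fun m m' h1 h2 h3 h4 => hW0 m m' (by linarith) (by
      have : 0 ≤ h * (θ / 2) := by positivity
      linarith) (by linarith) (by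
      have : 0 ≤ h * (θ / 2) := by positivity
      linarith))
    (fun m m' h1 h2 h3 h4 => hW1 m m' (by linarith) (by linarith) (by linarith) (by linarith))
  have hnat : ∀ u : ℝ, 0 ≤ u → ((⌊u⌋₊ + 1 : ℕ) : ℝ) ≤ u + 1 ∧ u < ((⌊u⌋₊ + 1 : ℕ) : ℝ) := by
    intro u hu
    push_cast
    exact ⟨by linarith [Nat.floor_le hu], Nat.lt_floor_add_one u⟩
  have hy0 : 0 ≤ y := hx0.trans hy1
  have hz0 : 0 ≤ y + h * t := by positivity
  obtain ⟨n1, n2⟩ := hnat y hy0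
  obtain ⟨n3, n4⟩ := hnat (y + h * t) hz0
  have hhθ : 0 ≤ h * (θ / 2) := by positivity
  refine ⟨fun m h1 h2 => ?_, fun m h1 h2 => ?_, fun k hk0 hk => b3 k hk0 (hk.trans ?_)⟩
  · rw [hW0 m (⌊y⌋₊ + 1) h1 h2 (by linarith) (by linarith)]
    exact b1 _ n2 (by linarith)
  · rw [hW1 m (⌊y + h * t⌋₊ + 1) h1 h2 (by linarith) (by linarith)]
    exact b2 _ n4 (by linarith)
  · exact mul_le_mul_of_nonneg_left (Real.sqrt_le_sqrt hrt) hc.le

end Pool.Agent.Helper38.PJ
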